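import Pool.Agent.Lib.MP_688fd0_co.SQ3.Iface
import Pool.Agent.Lib.MP_688fd0_co.SQ2.H41.Gne
import Pool.Agent.Lib.MP_688fd0_co.SQ2.H41.Gnq

/-!
GNQ and the existence of the structure `GN`.
-/

set_option autoImplicit false

namespace Pool.Agent.Lib.MP_688fd0_co.SQ3

open Subgroup

theorem omega_le {a b : ℕ} (h : a ∣ b) (hb : b ≠ 0) : a.primeFactorsList.length ≤ b.primeFactorsList.length :=
  (Nat.primeFactorsList_sublist_of_dvd h hb).length_le

/-- GNQ. -/
theorem gnq : GnqS := by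
  intro G _ _ N C eps k P h g hg
  have hn : (zpowers g).Normal := SQ2.H41.zpowers_normal N h.Nn h.Nc (h.CN hg)
  have hk : zpowers g ≤ eps.ker := by
    rw [Subgroup.zpowers_le]
    exact h.eN g (h.CN hg)
  have hs : Function.Surjective (QuotientGroup.mk' (zpowers g)) := QuotientGroup.mk'_surjective _
  refine ⟨hn, QuotientGroup.lift (zpowers g) eps hk, fun x => rfl, ?_⟩
  have h1 := SQ2.H41.gne_map h.toGNE hg (QuotientGroup.mk' (zpowers g)) hs (QuotientGroup.ker_mk' _)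
    (QuotientGroup.lift (zpowers g) eps hk) fun x => rfl
  refine { h1 with marg := fun p hp => ?_ }
  have hd : Nat.card (N.map (QuotientGroup.mk' (zpowers g))) ∣ Nat.card N := Subgroup.card_map_dvd N _
  have h2 := h.marg p (Nat.primeFactors_mono hd Nat.card_pos.ne' hp)
  have h3 : Nat.card (G ⧸ zpowers g) ∣ Nat.card G := Subgroup.card_quotient_dvd_card _
  have h4 := omega_le h3 Nat.card_pos.ne'
  refine lt_of_le_of_lt ?_ h2
  exact Nat.pow_le_pow_left (by omega) 10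

/-- The structure exists. -/
theorem gn_exists {G : Type*} [Group G] [Finite G] {k m P : ℕ} (hG : Nat.card G = k * m)
    (hD : SQ2.CutD (k * m) k m)
    (hm : ∀ p ∈ m.primeFactors, ((k * m).primeFactorsList.length + 2) ^ 10 < p) (hP : P ∈ m.primeFactors)
    {y : G} (hy : orderOf y = P) (h : ∀ g : G, g * y * g⁻¹ = y ∨ g * y * g⁻¹ = y⁻¹) :
    ∃ (eps : G →* ℤˣ) (N C : Subgroup G), (∀ g : G, g * y * g⁻¹ = y ^ ((eps g : ℤˣ) : ℤ)) ∧ y ∈ N ∧
      GN N C eps k P := by
  obtain ⟨eps, N, C, h1, h2, h3⟩ := SQ2.H41.gne hG hD hP hy h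
  refine ⟨eps, N, C, h1, h2, { h3 with marg := fun p hp => ?_ }⟩
  have h4 := N.card_mul_index
  have hk : 0 < k := Nat.pos_of_ne_zero fun h0 => by
    rw [h0, zero_mul] at hG; exact Nat.card_pos.ne' hG
  rw [h3.idx, hG, mul_comm] at h4
  have h5 : Nat.card N = m := Nat.eq_of_mul_eq_mul_left hk h4
  rw [h5] at hp
  rw [hG]
  exact hm p hp

end Pool.Agent.Lib.MP_688fd0_co.SQ3
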