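import Pool.Agent.Lib.MP_688fd0_co.SQ3.H23.FinalDefs
import Pool.Agent.Lib.MP_688fd0_co.SQ2.H41.Den2

/-!
NICE-E, second part: almost all integers have a large prime divisor `P ≡ 3 mod 4` such that no odd prime divisor of `n`
divides `P - 1`.
-/

set_option autoImplicit false

namespace Pool.Agent.Lib.MP_688fd0_co.SQ3

open Finset
open Pool.Agent.Lib.MP_688fd0_co.SQ2 Pool.Agent.Lib.MP_688fd0_co.SQ2.H41
open Pool.Agent.Lib.MP_688fd0_co.OSF.H38 (ell ev_pow ev_ell)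

theorem bigPS : BigPS := by
  classical
  intro t ε ht hε
  obtain ⟨J, ℓ₀, hP⟩ := hasP2_of Pool.Agent.Lib.MP_688fd0_co.OSF.H38.mertap
    Pool.Agent.Lib.MP_688fd0_co.OSF.H38.recg Pool.Agent.Lib.MP_688fd0_co.OSF.H38.btsum ε hε
  obtain ⟨ℓ₂, hℓ₂⟩ := ev_ell (2 ^ J + 10)
  obtain ⟨ℓ₃, hℓ₃⟩ := ev_pow (3 * t)
  obtain ⟨x₀, hx₀⟩ := ev_ell (max (max ℓ₀ ℓ₂) (max ℓ₃ ((2 ^ J + 2) ^ 2 + 10)))
  refine ⟨max x₀ 2, fun x hx => ?_⟩
  have hxx : x₀ ≤ x := (le_max_left _ _).trans hx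
  have hx2 : 2 ≤ x := (le_max_right _ _).trans hx
  obtain ⟨ℓ, hℓ⟩ : ∃ X : ℕ, X = ell x := ⟨_, rfl⟩
  have hall := hx₀ x hxx
  rw [← hℓ] at hall
  have g1 : ℓ₀ ≤ ℓ := ((le_max_left _ _).trans (le_max_left _ _)).trans hall
  have g2 : ℓ₂ ≤ ℓ := ((le_max_right _ _).trans (le_max_left _ _)).trans hall
  have g3 : ℓ₃ ≤ ℓ := ((le_max_left _ _).trans (le_max_right _ _)).trans hall
  have g4 : (2 ^ J + 2) ^ 2 + 10 ≤ ℓ := ((le_max_right _ _).trans (le_max_right _ _)).trans hall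
  obtain ⟨L, hL⟩ : ∃ X : ℕ, X = ell ℓ := ⟨_, rfl⟩
  have hL1 : 2 ^ J + 10 ≤ L := by rw [hL]; exact hℓ₂ ℓ g2
  have hLN : L ^ (3 * t) ≤ ℓ := by rw [hL]; exact hℓ₃ ℓ g3
  have hJ0 : 1 ≤ 2 ^ J := Nat.one_le_two_pow
  have hℓL : ℓ < 2 ^ L := by rw [hL]; exact lt_two_pow_ell ℓ
  have hlog : ℓ = Nat.log 2 x + 2 := by rw [hℓ]; unfold ell; rfl
  have hex : ∃ w, Nat.log 2 x ≤ w ^ t := ⟨Nat.log 2 x, Nat.le_self_pow (by omega) _⟩
  set w := Nat.find hex with hw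
  have hw1 : Nat.log 2 x ≤ w ^ t := Nat.find_spec hex
  -- `w` is small
  have hw2 : (w - 1) ^ t < Nat.log 2 x := by
    have hw0 : w ≠ 0 := by
      intro h0
      rw [h0, zero_pow (by omega)] at hw1
      have : 4 ≤ (2 ^ J + 2) ^ 2 := by nlinarith [Nat.one_le_two_pow (n := J)]
      omega
    have := Nat.find_min hex (m := w - 1) (by omega)
    omega
  -- `w` is large
  have hw3 : 5 * L ≤ w := by
    by_contra hlt
    push Not at hlt
    have h1 : w ^ t < (5 * L) ^ t := Nat.pow_lt_pow_left hlt (by omega)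
    have h2 : (5 * L) ^ t + 2 ≤ L ^ (3 * t) := by
      have h3 : 5 * L + 2 ≤ L ^ 3 := by
        have h6 : 10 ≤ L := by omega
        have h7 : 10 * 10 * L ≤ L * L * L := Nat.mul_le_mul_right L (Nat.mul_le_mul h6 h6)
        calc 5 * L + 2 ≤ 10 * 10 * L := by omega
          _ ≤ L * L * L := h7
          _ = L ^ 3 := by ring
      calc (5 * L) ^ t + 2 ≤ (5 * L + 2) ^ t := by
            obtain ⟨t', rfl⟩ : ∃ t', t = t' + 1 := ⟨t - 1, by omega⟩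
            rw [pow_succ, pow_succ]
            have h4 : (5 * L) ^ t' ≤ (5 * L + 2) ^ t' := Nat.pow_le_pow_left (by omega) t'
            have h5 : 1 ≤ (5 * L + 2) ^ t' := Nat.one_le_pow _ _ (by omega)
            nlinarith
        _ ≤ (L ^ 3) ^ t := Nat.pow_le_pow_left h3 t
        _ = L ^ (3 * t) := by rw [← pow_mul]
    omega
  have hw4 : w * 2 ^ J ≤ Nat.log 2 x := by
    have h1 : (w - 1) ^ 2 ≤ (w - 1) ^ t := Nat.pow_le_pow_right (by omega) ht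
    have h2 : 2 ^ J + 1 ≤ w - 1 := by
      have h4 : 2 ^ J + 2 ≤ w := (by omega : 2 ^ J + 2 ≤ 5 * L).trans hw3
      exact Nat.le_sub_one_of_lt (by omega)
    have h3 : w * 2 ^ J ≤ (w - 1) ^ 2 := by
      obtain ⟨v, hv⟩ : ∃ v, w = v + 1 := ⟨w - 1, by omega⟩
      rw [hv, Nat.add_sub_cancel] at h2 ⊢
      nlinarith
    omega
  have h := hP x (2 ^ w) (by rw [← hℓ]; exact g1) ?_ ?_
  · refine le_trans ?_ h
    have hsub : (Icc 1 x).filter (fun n => ¬ ∃ P, BigP t n P) ⊆ (Icc 1 x).filter (fun n => ¬ HasP2 (2 ^ w) n) := by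
      intro n hn
      rw [mem_filter] at hn ⊢
      refine ⟨hn.1, fun hcon => hn.2 ?_⟩
      obtain ⟨P, hP1, ⟨hP2, hP3⟩, hP4⟩ := hcon
      refine ⟨P, hP1, hP2, hP3, ?_⟩
      have h1 : Nat.log 2 n ≤ Nat.log 2 x := Nat.log_mono_right (mem_Icc.1 hn.1).2
      have h2 : w ≤ Nat.log 2 P := Nat.le_log_of_pow_le (by norm_num) hP4
      exact (h1.trans hw1).trans (Nat.pow_le_pow_left h2 t)
    exact_mod_cast Finset.card_le_card hsub
  · rw [← hℓ]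
    calc ℓ ^ 5 ≤ (2 ^ L) ^ 5 := Nat.pow_le_pow_left hℓL.le 5
      _ = 2 ^ (5 * L) := by rw [← pow_mul, mul_comm]
      _ ≤ 2 ^ w := Nat.pow_le_pow_right (by norm_num) hw3
  · rw [← pow_mul]
    exact Nat.pow_le_of_le_log (by omega) hw4

end Pool.Agent.Lib.MP_688fd0_co.SQ3
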