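import Pool.Agent.Lib.MP_688fd0_co.SQ3.H41.NiceX
import Pool.Agent.Lib.MP_688fd0_co.SQ3.H41.BigP

/-!
NICE-E.
-/

set_option autoImplicit false

namespace Pool.Agent.Lib.MP_688fd0_co.SQ3

open Finset

/-- NICE-E, first part. -/
theorem niceMS : NiceMS := by
  classical
  intro c ε hε
  obtain ⟨x₀, h⟩ := niceXS c ε hε
  refine ⟨x₀, fun x hx => le_trans ?_ (h x hx)⟩
  have hsub : (Icc 1 x).filter (fun n => ¬ NiceM c n) ⊆ (Icc 1 x).filter (fun n => ¬ NiceX c n) := by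
    intro n hn
    rw [mem_filter] at hn ⊢
    refine ⟨hn.1, fun hcon => hn.2 ?_⟩
    obtain ⟨k, m, h1, h2, h3⟩ := hcon
    exact ⟨k, m, { h1 with marg := h2 }, h3⟩
  exact_mod_cast Finset.card_le_card hsub

end Pool.Agent.Lib.MP_688fd0_co.SQ3
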