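import Pool.Agent.Lib.MP_688fd0_co.SQ3.H23.CountDefs
import Pool.Agent.Lib.MP_688fd0_co.SQ2.H41.Den2

/-!
BIGPR: almost all integers have many large prime divisors `P ≡ 3 mod 4` such that no odd prime divisor of `n` divides
`P - 1`.
-/

set_option autoImplicit false

namespace Pool.Agent.Lib.MP_688fd0_co.SQ3

open Finset Filter
open Pool.Agent.Lib.MP_688fd0_co.SQ2 Pool.Agent.Lib.MP_688fd0_co.SQ2.H41
open Pool.Agent.Lib.MP_ba0fa5_ag.AA (primesIn MertapStmt RecgStmt BtsumStmt)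
open Pool.Agent.Lib.MP_688fd0_co.OSF.H38 (ell two_le_ell harm_le card_mult mem_primesIn upp upq low mert turan
  bad1 bad2 bad4 bad5 ev_pow ev_ell)

/-- `n` has at least `K` prime factors `P ≥ W` with `P ≡ 3 mod 4` such that no odd prime factor of `n` divides
`P - 1`. -/
def HasPN (K W n : ℕ) : Prop := ∃ 𝒬 : Finset ℕ, K ≤ 𝒬.card ∧ ∀ P ∈ 𝒬, P ∈ n.primeFactors ∧
  ((∀ q ∈ n.primeFactors, q ∣ P - 1 → q = 2) ∧ ¬ 4 ∣ P - 1) ∧ W ≤ P

open scoped Classical in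
theorem hasPN_of (hM : MertapStmt) (hR : RecgStmt) (hB : BtsumStmt) (K : ℕ) (ε : ℝ) (hε : 0 < ε) :
    ∃ J ℓ₀ : ℕ, ∀ x W : ℕ, ℓ₀ ≤ ell x → ell x ^ 5 ≤ W → W ^ 2 ^ J ≤ x →
      (((Icc 1 x).filter (fun n => ¬ HasPN K W n)).card : ℝ) ≤ ε * x := by
  classical
  obtain ⟨C, hC0, hC⟩ := upq hB
  set δ : ℝ := ε / 3 with hδ
  have hδ0 : 0 < δ := by positivity
  obtain ⟨z₀, hz₀⟩ := exists_nat_ge (8 * C / δ)
  set z : ℕ := z₀ + 2 with hz
  set M : ℕ := 4 * ∏ p ∈ (Icc 3 z).filter Nat.Prime, p with hMdef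
  have hM1 : 1 ≤ M := by
    have : 1 ≤ ∏ p ∈ (Icc 3 z).filter Nat.Prime, p :=
      Finset.one_le_prod' fun p hp => (mem_filter.mp hp).2.pos
    omega
  have hφ : (0 : ℝ) < M.totient := by exact_mod_cast Nat.totient_pos.mpr hM1
  obtain ⟨J₀, hJ₀⟩ := exists_nat_ge (24 * M.totient / δ + 8 * M.totient * K)
  set J : ℕ := J₀ + 1 with hJ
  obtain ⟨W₀, hW₀⟩ := low hM hR M hM1 J (by omega)
  obtain ⟨ℓ₀, hℓ₀⟩ := exists_nat_ge (1 / δ)
  refine ⟨J, max (max 3 (M ^ 2)) (max W₀ ℓ₀), fun x W hall hWℓ5 hWx => ?_⟩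
  set ℓ : ℕ := ell x with hℓ
  have hℓ3 : 3 ≤ ℓ := ((le_max_left _ _).trans (le_max_left _ _)).trans hall
  have hℓM : M ^ 2 ≤ ℓ := ((le_max_right _ _).trans (le_max_left _ _)).trans hall
  have hℓW : W₀ ≤ ℓ := ((le_max_left _ _).trans (le_max_right _ _)).trans hall
  have hℓℓ : ℓ₀ ≤ ℓ := ((le_max_right _ _).trans (le_max_right _ _)).trans hall
  have hℓr0 : (0 : ℝ) < ℓ := by exact_mod_cast (by omega : 0 < ℓ)
  have hℓδ : 1 / δ ≤ ℓ := hℓ₀.trans (by exact_mod_cast hℓℓ)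
  have hinv : 1 / (ℓ : ℝ) ≤ δ := by
    rw [div_le_iff₀ hℓr0]
    rw [div_le_iff₀ hδ0] at hℓδ
    linarith
  set Y : ℕ := ℓ ^ 2 with hY
  have hY1 : 1 ≤ Y := Nat.one_le_pow _ _ (by omega)
  have hYW : Y ≤ W := (Nat.pow_le_pow_right (by omega) (by omega)).trans hWℓ5
  have hWℓ : ℓ ≤ W := (Nat.le_self_pow (by omega) ℓ).trans hWℓ5
  have hW3 : 3 ≤ W := hℓ3.trans hWℓ
  have hYM : (Y * M) ^ 2 ≤ W := by
    calc (Y * M) ^ 2 = ℓ ^ 4 * M ^ 2 := by rw [hY]; ring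
      _ ≤ ℓ ^ 4 * ℓ := Nat.mul_le_mul_left _ hℓM
      _ = ℓ ^ 5 := by ring
      _ ≤ W := hWℓ5
  have hWlex : W ≤ x := (Nat.le_self_pow (by positivity) W).trans hWx
  have hx1 : 1 ≤ x := by omega
  have hx0 : (0 : ℝ) < x := by exact_mod_cast hx1
  set S := (primesIn W (W ^ 2 ^ J)).filter (fun p => p ≡ M - 1 [MOD M]) with hS
  have hSp : ∀ p ∈ S, p.Prime := fun p hp => (mem_primesIn.mp (mem_filter.mp hp).1).2
  have hScard : S.card ≤ x := by
    have h1 : S ⊆ Ioc 0 x := by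
      intro p hp
      have h2 := mem_primesIn.mp (mem_filter.mp hp).1
      rw [mem_Ioc]
      exact ⟨h2.2.pos, h2.1.2.trans hWx⟩
    simpa using Finset.card_le_card h1
  have hJr : (0 : ℝ) < J := by exact_mod_cast (by omega : 0 < J)
  set μ : ℝ := (J : ℝ) / (2 * M.totient) with hμ
  have hμ0 : 0 < μ := by positivity
  have hlow : μ ≤ ∑ p ∈ S, (1 : ℝ) / p := hW₀ W (hℓW.trans hWℓ)
  have hKμ : (K : ℝ) ≤ μ / 4 := by
    have h1 : 8 * (M.totient : ℝ) * K ≤ J₀ := le_trans (le_add_of_nonneg_left (by positivity)) hJ₀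
    have h2 : (J : ℝ) = J₀ + 1 := by rw [hJ]; push_cast; ring
    rw [hμ, div_div, le_div_iff₀ (by positivity), h2]
    nlinarith
  -- the exceptional sets
  set E1 := (Ioc 0 x).filter fun n => ∃ q ∈ n.primeFactors, ∃ p ∈ n.primeFactors,
      Y < q ∧ q ∣ p - 1 with hE1
  set E4 := (Ioc 0 x).filter fun n => ((S.filter (fun p => p ∣ n)).card : ℝ) ≤ μ / 2 with hE4
  set E5 := (Ioc 0 x).filter fun n => μ / 4 ≤
      (((S.filter (fun p => p ∣ n)).filter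
        (fun p => ∃ q ∈ primesIn z Y, q ∣ n ∧ q ∣ p - 1)).card : ℝ) with hE5
  have hYr : (Y : ℝ) = (ℓ : ℝ) ^ 2 := by rw [hY]; push_cast; ring
  have c1 : (E1.card : ℝ) ≤ δ * x := by
    refine (bad1 x Y (by omega)).trans ?_
    rw [hYr, ← hℓ]
    have : (x : ℝ) * ℓ / (ℓ : ℝ) ^ 2 = (1 / ℓ) * x := by field_simp
    rw [this]
    exact mul_le_mul_of_nonneg_right hinv hx0.le
  have c4 : (E4.card : ℝ) ≤ δ * x := by
    refine (bad4 x S hSp hScard μ hμ0 hlow).trans ?_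
    have h1 : 24 * (M.totient : ℝ) ≤ δ * J := by
      have hJ₁ : 24 * (M.totient : ℝ) / δ ≤ J₀ := le_trans (le_add_of_nonneg_right (by positivity)) hJ₀
      rw [div_le_iff₀ hδ0] at hJ₁
      have : (J : ℝ) = J₀ + 1 := by rw [hJ]; push_cast; ring
      rw [this]
      nlinarith
    rw [div_le_iff₀ hμ0, hμ]
    have h2 : δ * x * ((J : ℝ) / (2 * M.totient)) = (δ * J) * (x / (2 * M.totient)) := by ring
    rw [h2]
    have h3 : 12 * (x : ℝ) = (24 * M.totient) * (x / (2 * M.totient)) := by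
      field_simp
      norm_num
    rw [h3]
    exact mul_le_mul_of_nonneg_right h1 (by positivity)
  have c5 : (E5.card : ℝ) ≤ δ * x := by
    have hMz : ∀ l : ℕ, l.Prime → l ∣ M → l ≤ z := by
      intro l hl hlM
      rw [hMdef, hl.dvd_mul] at hlM
      rcases hlM with h | hlM
      · have h4 : l ∣ 2 ^ 2 := h
        have := (Nat.prime_dvd_prime_iff_eq hl Nat.prime_two).mp (hl.dvd_of_dvd_pow h4)
        omega
      rw [Prime.dvd_finsetProd_iff hl.prime] at hlM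
      obtain ⟨p, hp, hlp⟩ := hlM
      rw [mem_filter, mem_Icc] at hp
      have := (Nat.prime_dvd_prime_iff_eq hl hp.2).mp hlp
      omega
    have h1 := hC M z Y W J hM1 (by omega) hW3 hMz hYM
    refine (bad5 x S (primesIn z Y) hSp (fun q hq => (mem_primesIn.mp hq).2)
      (C * J / (M.totient * z)) (μ / 4) (by positivity) h1).trans ?_
    have hzr : (0 : ℝ) < z := by exact_mod_cast (by omega : 0 < z)
    have h2 : 8 * C ≤ δ * z := by
      rw [div_le_iff₀ hδ0] at hz₀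
      have : (z : ℝ) = z₀ + 2 := by rw [hz]; push_cast; ring
      rw [this]
      nlinarith
    have h3 : x * (C * J / (M.totient * z)) / (μ / 4) = x * (8 * C / z) := by
      rw [hμ]
      field_simp
      norm_num
    rw [h3, mul_comm δ]
    refine mul_le_mul_of_nonneg_left ?_ hx0.le
    rw [div_le_iff₀ hzr]
    exact h2
  -- inclusion
  have hsub : (Icc 1 x).filter (fun n => ¬ HasPN K W n) ⊆ E1 ∪ (E4 ∪ E5) := by
    intro n hn
    rw [mem_filter, mem_Icc] at hn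
    obtain ⟨⟨hn1, hnx⟩, hnf⟩ := hn
    have hnI : n ∈ Ioc 0 x := by rw [mem_Ioc]; omega
    by_contra hcon
    rw [mem_union, mem_union] at hcon
    push Not at hcon
    obtain ⟨n1, n4, n5⟩ := hcon
    rw [hE1, mem_filter] at n1
    rw [hE4, mem_filter] at n4
    rw [hE5, mem_filter] at n5
    have m1 : ∀ q ∈ n.primeFactors, ∀ p ∈ n.primeFactors, q ∣ p - 1 → q ≤ Y := by
      intro q hq p hp h
      by_contra h'
      exact n1 ⟨hnI, q, hq, p, hp, by omega, h⟩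
    have m4 : μ / 2 < ((S.filter (fun p => p ∣ n)).card : ℝ) := by
      by_contra h'
      exact n4 ⟨hnI, by linarith⟩
    have m5 : (((S.filter (fun p => p ∣ n)).filter
        (fun p => ∃ q ∈ primesIn z Y, q ∣ n ∧ q ∣ p - 1)).card : ℝ) < μ / 4 := by
      by_contra h'
      exact n5 ⟨hnI, by linarith⟩
    -- the primes P
    refine hnf ⟨(S.filter (fun p => p ∣ n)).filter (fun p => ¬ ∃ q ∈ primesIn z Y, q ∣ n ∧ q ∣ p - 1), ?_,
      fun P hP => ?_⟩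
    · have h1 := Finset.card_filter_add_card_filter_not (s := S.filter (fun p => p ∣ n))
        (fun p => ∃ q ∈ primesIn z Y, q ∣ n ∧ q ∣ p - 1)
      have h2 : (((S.filter (fun p => p ∣ n)).filter
          (fun p => ∃ q ∈ primesIn z Y, q ∣ n ∧ q ∣ p - 1)).card : ℝ) +
          (((S.filter (fun p => p ∣ n)).filter
            (fun p => ¬ ∃ q ∈ primesIn z Y, q ∣ n ∧ q ∣ p - 1)).card : ℝ) =
          ((S.filter (fun p => p ∣ n)).card : ℝ) := by exact_mod_cast h1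
      have h3 : (K : ℝ) ≤ (((S.filter (fun p => p ∣ n)).filter
            (fun p => ¬ ∃ q ∈ primesIn z Y, q ∣ n ∧ q ∣ p - 1)).card : ℝ) := by
        linarith
      exact_mod_cast h3
    rw [mem_filter] at hP
    obtain ⟨hP, hPq⟩ := hP
    rw [mem_filter] at hP
    obtain ⟨hPS, hPn⟩ := hP
    have hPp := hSp P hPS
    have hPS' := hPS
    rw [hS, mem_filter, mem_primesIn] at hPS'
    obtain ⟨⟨⟨hWP, _⟩, _⟩, hPM⟩ := hPS'
    have hPf : P ∈ n.primeFactors := Nat.mem_primeFactors.mpr ⟨hPp, hPn, by omega⟩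
    have hP1 : P + 1 ≡ M [MOD M] := by
      have h3 : P + 1 ≡ M - 1 + 1 [MOD M] := hPM.add_right 1
      rwa [Nat.sub_add_cancel hM1] at h3
    have hMP : M ∣ P + 1 := (Nat.modEq_zero_iff_dvd).mp
      (hP1.trans ((Nat.modEq_zero_iff_dvd).mpr (dvd_refl M)))
    have hdiff : (P + 1) - (P - 1) = 2 := by
      have := hPp.two_le
      omega
    refine ⟨hPf, ⟨fun q hq => fun h => ?_, fun h => ?_⟩, hWP.le⟩
    · by_contra hq2
      have hqp := Nat.prime_of_mem_primeFactors hq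
      have hqn := Nat.dvd_of_mem_primeFactors hq
      have hqY := m1 q hq P hPf h
      rcases Nat.lt_or_ge z q with h1 | h1
      · exact hPq ⟨q, mem_primesIn.mpr ⟨⟨h1, hqY⟩, hqp⟩, hqn, h⟩
      · have hq3 : 3 ≤ q := by
          have := hqp.two_le
          omega
        have hqM : q ∣ M := (Finset.dvd_prod_of_mem (fun p => p)
          (mem_filter.mpr ⟨mem_Icc.mpr ⟨hq3, h1⟩, hqp⟩)).trans (Dvd.intro_left _ rfl)
        have h6 : q ∣ (P + 1) - (P - 1) := Nat.dvd_sub (hqM.trans hMP) h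
        rw [hdiff] at h6
        have := Nat.le_of_dvd (by norm_num) h6
        omega
    · have h6 : 4 ∣ (P + 1) - (P - 1) := Nat.dvd_sub ((Dvd.intro _ rfl : 4 ∣ M).trans hMP) h
      rw [hdiff] at h6
      omega
  have hcard := Finset.card_le_card hsub
  have hcard2 : (E1 ∪ (E4 ∪ E5)).card ≤ E1.card + (E4.card + E5.card) := by
    refine (Finset.card_union_le _ _).trans (Nat.add_le_add_left ?_ _)
    exact Finset.card_union_le _ _
  have hfin : (((Icc 1 x).filter (fun n => ¬ HasPN K W n)).card : ℝ) ≤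
      E1.card + (E4.card + (E5.card : ℝ)) := by
    exact_mod_cast hcard.trans hcard2
  have hεδ : ε = 3 * δ := by rw [hδ]; ring
  rw [hεδ]
  linarith

/-- BIGPR. -/
theorem bigPRS : BigPRS := by
  classical
  intro t R ε ht hε
  obtain ⟨v, hv⟩ : ∃ v : ℕ, (2 : ℝ) / ε < 2 ^ v := pow_unbounded_of_one_lt _ (by norm_num)
  obtain ⟨J, ℓ₀, hP⟩ := hasPN_of Pool.Agent.Lib.MP_688fd0_co.OSF.H38.mertap
    Pool.Agent.Lib.MP_688fd0_co.OSF.H38.recg Pool.Agent.Lib.MP_688fd0_co.OSF.H38.btsum (R * 2 ^ v) (ε / 2)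
    (by positivity)
  obtain ⟨ℓ₂, hℓ₂⟩ := ev_ell (2 ^ J + 10)
  obtain ⟨ℓ₃, hℓ₃⟩ := ev_pow (3 * t)
  obtain ⟨x₀, hx₀⟩ := ev_ell (max (max ℓ₀ ℓ₂) (max ℓ₃ ((2 ^ J + 2) ^ 2 + 10)))
  refine ⟨max x₀ 2, fun x hx => ?_⟩
  have hxx : x₀ ≤ x := (le_max_left _ _).trans hx
  have hx2 : 2 ≤ x := (le_max_right _ _).trans hx
  obtain ⟨ℓ, hℓ⟩ : ∃ X : ℕ, X = ell x := ⟨_, rfl⟩
  have hall := hx₀ x hxx
  rw [← hℓ] at hall
  have g1 : ℓ₀ ≤ ℓ := ((le_max_left _ _).trans (le_max_left _ _)).trans hall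
  have g2 : ℓ₂ ≤ ℓ := ((le_max_right _ _).trans (le_max_left _ _)).trans hall
  have g3 : ℓ₃ ≤ ℓ := ((le_max_left _ _).trans (le_max_right _ _)).trans hall
  have g4 : (2 ^ J + 2) ^ 2 + 10 ≤ ℓ := ((le_max_right _ _).trans (le_max_right _ _)).trans hall
  obtain ⟨L, hL⟩ : ∃ X : ℕ, X = ell ℓ := ⟨_, rfl⟩
  have hL1 : 2 ^ J + 10 ≤ L := by rw [hL]; exact hℓ₂ ℓ g2
  have hLN : L ^ (3 * t) ≤ ℓ := by rw [hL]; exact hℓ₃ ℓ g3
  have hJ0 : 1 ≤ 2 ^ J := Nat.one_le_two_pow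
  have hℓL : ℓ < 2 ^ L := by rw [hL]; exact lt_two_pow_ell ℓ
  have hlog : ℓ = Nat.log 2 x + 2 := by rw [hℓ]; unfold ell; rfl
  have hex : ∃ w, Nat.log 2 x ≤ w ^ t := ⟨Nat.log 2 x, Nat.le_self_pow (by omega) _⟩
  set w := Nat.find hex with hw
  have hw1 : Nat.log 2 x ≤ w ^ t := Nat.find_spec hex
  -- `w` is small
  have hw2 : (w - 1) ^ t < Nat.log 2 x := by
    have hw0 : w ≠ 0 := by
      intro h0
      rw [h0, zero_pow (by omega)] at hw1
      have : 4 ≤ (2 ^ J + 2) ^ 2 := by nlinarith [Nat.one_le_two_pow (n := J)]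
      omega
    have := Nat.find_min hex (m := w - 1) (by omega)
    omega
  -- `w` is large
  have hw3 : 5 * L ≤ w := by
    by_contra hlt
    push Not at hlt
    have h1 : w ^ t < (5 * L) ^ t := Nat.pow_lt_pow_left hlt (by omega)
    have h2 : (5 * L) ^ t + 2 ≤ L ^ (3 * t) := by
      have h3 : 5 * L + 2 ≤ L ^ 3 := by
        have h6 : 10 ≤ L := by omega
        have h7 : 10 * 10 * L ≤ L * L * L := Nat.mul_le_mul_right L (Nat.mul_le_mul h6 h6)
        calc 5 * L + 2 ≤ 10 * 10 * L := by omega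
          _ ≤ L * L * L := h7
          _ = L ^ 3 := by ring
      calc (5 * L) ^ t + 2 ≤ (5 * L + 2) ^ t := by
            obtain ⟨t', rfl⟩ : ∃ t', t = t' + 1 := ⟨t - 1, by omega⟩
            rw [pow_succ, pow_succ]
            have h4 : (5 * L) ^ t' ≤ (5 * L + 2) ^ t' := Nat.pow_le_pow_left (by omega) t'
            have h5 : 1 ≤ (5 * L + 2) ^ t' := Nat.one_le_pow _ _ (by omega)
            nlinarith
        _ ≤ (L ^ 3) ^ t := Nat.pow_le_pow_left h3 t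
        _ = L ^ (3 * t) := by rw [← pow_mul]
    omega
  have hw4 : w * 2 ^ J ≤ Nat.log 2 x := by
    have h1 : (w - 1) ^ 2 ≤ (w - 1) ^ t := Nat.pow_le_pow_right (by omega) ht
    have h2 : 2 ^ J + 1 ≤ w - 1 := by
      have h4 : 2 ^ J + 2 ≤ w := (by omega : 2 ^ J + 2 ≤ 5 * L).trans hw3
      exact Nat.le_sub_one_of_lt (by omega)
    have h3 : w * 2 ^ J ≤ (w - 1) ^ 2 := by
      obtain ⟨v, hv⟩ : ∃ v, w = v + 1 := ⟨w - 1, by omega⟩
      rw [hv, Nat.add_sub_cancel] at h2 ⊢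
      nlinarith
    omega
  have h := hP x (2 ^ w) (by rw [← hℓ]; exact g1) ?_ ?_
  · have hdiv : (((Icc 1 x).filter (fun n => 2 ^ v ∣ n)).card : ℝ) ≤ ε / 2 * x := by
      have h1 : ((Icc 1 x).filter (fun n => 2 ^ v ∣ n)).card = x / 2 ^ v := by
        have := Nat.Ioc_filter_dvd_card_eq_div x (2 ^ v)
        rw [← this]
        congr 1
      rw [h1]
      have h2 : ((x / 2 ^ v : ℕ) : ℝ) ≤ (x : ℝ) / ((2 ^ v : ℕ) : ℝ) := Nat.cast_div_le
      refine h2.trans ?_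
      push_cast
      rw [div_le_iff₀ (by positivity)]
      rw [div_lt_iff₀ hε] at hv
      have hx0 : (0 : ℝ) ≤ x := Nat.cast_nonneg x
      nlinarith
    have hsub : (Icc 1 x).filter (fun n => ¬ ∃ 𝒬 : Finset ℕ, R * 2 ^ n.factorization 2 ≤ 𝒬.card ∧
        ∀ P ∈ 𝒬, BigP t n P) ⊆ (Icc 1 x).filter (fun n => 2 ^ v ∣ n) ∪
          (Icc 1 x).filter (fun n => ¬ HasPN (R * 2 ^ v) (2 ^ w) n) := by
      intro n hn
      rw [mem_filter] at hn
      rw [mem_union, mem_filter, mem_filter]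
      by_cases hvn : 2 ^ v ∣ n
      · exact Or.inl ⟨hn.1, hvn⟩
      · refine Or.inr ⟨hn.1, fun hcon => hn.2 ?_⟩
        obtain ⟨𝒬, hQ1, hQ2⟩ := hcon
        have hfac : n.factorization 2 ≤ v := by
          by_contra hlt
          push Not at hlt
          exact hvn ((pow_dvd_pow 2 hlt.le).trans (Nat.ordProj_dvd n 2))
        refine ⟨𝒬, (Nat.mul_le_mul_left R (Nat.pow_le_pow_right (by norm_num) hfac)).trans hQ1, fun P hPQ => ?_⟩
        obtain ⟨hP1, ⟨hP2, hP3⟩, hP4⟩ := hQ2 P hPQ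
        refine ⟨hP1, hP2, hP3, ?_⟩
        have h1 : Nat.log 2 n ≤ Nat.log 2 x := Nat.log_mono_right (mem_Icc.1 hn.1).2
        have h2 : w ≤ Nat.log 2 P := Nat.le_log_of_pow_le (by norm_num) hP4
        exact (h1.trans hw1).trans (Nat.pow_le_pow_left h2 t)
    have hc := (Finset.card_le_card hsub).trans (Finset.card_union_le _ _)
    have hc' : (((Icc 1 x).filter (fun n => ¬ ∃ 𝒬 : Finset ℕ, R * 2 ^ n.factorization 2 ≤ 𝒬.card ∧
        ∀ P ∈ 𝒬, BigP t n P)).card : ℝ) ≤ (((Icc 1 x).filter (fun n => 2 ^ v ∣ n)).card : ℝ) +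
          (((Icc 1 x).filter (fun n => ¬ HasPN (R * 2 ^ v) (2 ^ w) n)).card : ℝ) := by exact_mod_cast hc
    linarith
  · rw [← hℓ]
    calc ℓ ^ 5 ≤ (2 ^ L) ^ 5 := Nat.pow_le_pow_left hℓL.le 5
      _ = 2 ^ (5 * L) := by rw [← pow_mul, mul_comm]
      _ ≤ 2 ^ w := Nat.pow_le_pow_right (by norm_num) hw3
  · rw [← pow_mul]
    exact Nat.pow_le_of_le_log (by omega) hw4

end Pool.Agent.Lib.MP_688fd0_co.SQ3
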