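import Pool.Agent.Lib.MP_688fd0_co.SQ3.H23.FinalDefs
import Pool.Agent.Lib.MP_688fd0_co.SQ2.H41.Den

/-!
NICE-E, first part: almost all integers have a cut with a margin and small `k`.
-/

set_option autoImplicit false

namespace Pool.Agent.Lib.MP_688fd0_co.SQ3

open Finset Filter
open Pool.Agent.Lib.MP_688fd0_co.SQ2 Pool.Agent.Lib.MP_688fd0_co.SQ2.H41
open Pool.Agent.Lib.MP_ba0fa5_ag.AA (primesIn MertapStmt RecgStmt BtsumStmt)
open Pool.Agent.Lib.MP_688fd0_co.OSF.H38 (ell two_le_ell harm_le card_mult mem_primesIn upp mert turan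
  bad1 bad2 ev_pow ev_ell)

/-- `n` has a cut with a margin and small `k`. -/
def NiceX (c n : ℕ) : Prop :=
  ∃ k m, CutD n k m ∧ (∀ p ∈ m.primeFactors, (n.primeFactorsList.length + 2) ^ 10 < p) ∧
    (k + n.primeFactorsList.length) ^ c ≤ Nat.log 2 n

theorem niceX_of {c n V T J₁ L : ℕ} (hn : n ≠ 0) (hV4 : 4 ≤ V)
    (h1 : ∀ p ∈ n.primeFactors, V < p → ¬ p ^ 2 ∣ n)
    (h2 : ∀ q ∈ n.primeFactors, ∀ p ∈ n.primeFactors, V < q → ¬ q ∣ p - 1)
    (h4 : ∀ p ∈ n.primeFactors, V < p → ∀ d, d ∣ n → d ≡ 1 [MOD p] → (∀ q ∈ d.primeFactors, q < p) →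
      d = 1)
    (h5 : Sm n V ≤ V ^ T) (h6 : cnt n V (V ^ 2 ^ (5 * J₁)) ≤ 4 * J₁) (hT : T + 1 ≤ 2 ^ J₁)
    (hΩ : n.primeFactorsList.length ≤ 3 * L) (hL : 3 * L ≤ V)
    (hLV : (3 * L + 2) ^ 10 ≤ V) (hW : (V ^ 2 ^ (5 * J₁) + 3 * L) ^ c ≤ Nat.log 2 n) : NiceX c n := by
  set Z : ℕ := V ^ 2 ^ (5 * J₁) with hZdef
  have hVZ : V ≤ Z := Nat.le_self_pow (by positivity) V
  have hB : 4 * Sm n V ≤ V ^ (T + 1) := by
    calc 4 * Sm n V ≤ V * V ^ T := Nat.mul_le_mul hV4 h5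
      _ = V ^ (T + 1) := by rw [pow_succ]; ring
  have hBZ : (V ^ (T + 1)) ^ 2 ^ cnt n V Z ≤ Z := by
    rw [← pow_mul, hZdef]
    refine Nat.pow_le_pow_right (by omega) ?_
    calc (T + 1) * 2 ^ cnt n V (V ^ 2 ^ (5 * J₁)) ≤ 2 ^ J₁ * 2 ^ (4 * J₁) :=
          Nat.mul_le_mul hT (Nat.pow_le_pow_right (by norm_num) h6)
      _ = 2 ^ (5 * J₁) := by rw [← pow_add]; ring_nf
  obtain ⟨y, hVy, hyZ, hy1, hy2⟩ := exists_cut hVZ h1 hB hBZ
  have hkZ : 4 * Sm n y ≤ Z := hy2.trans hBZ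
  set k := Sm n y with hk
  set m := Ro n y with hm
  have hkm : k * m = n := Sm_mul_Ro hn y
  have hmem : ∀ p ∈ m.primeFactors, p ∈ n.primeFactors ∧ V < p ∧ 4 * k < p := by
    intro p hp
    obtain ⟨h3, h4'⟩ := mem_primeFactors_Ro hn hp
    exact ⟨h3, by omega, hy1 p h3 h4'⟩
  refine ⟨k, m, ⟨hkm.symm, coprime_Sm_Ro hn y, squarefree_Ro hn (fun p hp h => h1 p hp (by omega)),
    fun p hp => (hmem p hp).2.2, fun p hp => ?_, fun p hp q hq => ?_, fun p hp => ?_⟩, fun p hp => ?_, ?_⟩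
  · have := (hmem p hp).2.1
    omega
  · exact h2 p (hmem p hp).1 q hq (hmem p hp).2.1
  · exact h4 p (hmem p hp).1 (hmem p hp).2.1
  · have h7 := (hmem p hp).2.1
    have h8 : (n.primeFactorsList.length + 2) ^ 10 ≤ (3 * L + 2) ^ 10 := Nat.pow_le_pow_left (by omega) 10
    omega
  · refine le_trans (Nat.pow_le_pow_left ?_ c) hW
    omega

open Classical in
theorem niceXS_of (hM : MertapStmt) (hR : RecgStmt) (hB : BtsumStmt) :
    ∀ (c : ℕ) (ε : ℝ), 0 < ε → ∃ x₀ : ℕ, ∀ x ≥ x₀,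
      (((Finset.Icc 1 x).filter (fun n => ¬ NiceX c n)).card : ℝ) ≤ ε * x := by
  classical
  intro c ε hε
  obtain ⟨δ, hδ⟩ : ∃ X : ℝ, X = ε / 12 := ⟨_, rfl⟩
  have hδ0 : 0 < δ := by rw [hδ]; positivity
  obtain ⟨V₀, hV₀⟩ := sum_le hM hR
  obtain ⟨C, hC0, hC⟩ := card_bt hB
  obtain ⟨C', hC'0, hC'⟩ := mert hM
  -- constants
  obtain ⟨T₀, hT₀⟩ := exists_nat_ge (6 / δ)
  obtain ⟨T, hT⟩ : ∃ X : ℕ, X = T₀ + 1 := ⟨_, rfl⟩
  obtain ⟨J₀, hJ₀⟩ := exists_nat_ge (42 / δ)
  obtain ⟨J₁, hJ₁⟩ : ∃ X : ℕ, X = J₀ + T + 1 := ⟨_, rfl⟩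
  obtain ⟨k₀, hk₀⟩ := exists_nat_ge (4 / δ)
  obtain ⟨A, hA⟩ : ∃ X : ℕ, X = 20 * 2 ^ (5 * J₁) := ⟨_, rfl⟩
  obtain ⟨B, hBdef⟩ : ∃ X : ℕ, X = (A + 1) * c + A + 2 := ⟨_, rfl⟩
  obtain ⟨N, hN⟩ : ∃ X : ℕ, X = B + A + 1 := ⟨_, rfl⟩
  obtain ⟨L₀, hL₀⟩ := exists_nat_ge (max (max ((3 + C + (T + 1)) / δ) (Real.exp C')) ((k₀ + 1 : ℕ) + 5 + V₀))
  obtain ⟨ℓ₂, hℓ₂⟩ := ev_ell L₀
  obtain ⟨ℓ₃, hℓ₃⟩ := ev_pow N
  obtain ⟨x₀, hx₀⟩ := ev_ell (max ℓ₂ (max ℓ₃ 3))
  refine ⟨max x₀ 2, fun x hx => ?_⟩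
  have hxx : x₀ ≤ x := (le_max_left _ _).trans hx
  have hx2 : 2 ≤ x := (le_max_right _ _).trans hx
  have hx0 : (0 : ℝ) < x := by exact_mod_cast (by omega : 0 < x)
  obtain ⟨ℓ, hℓ⟩ : ∃ X : ℕ, X = ell x := ⟨_, rfl⟩
  have hall := hx₀ x hxx
  rw [← hℓ] at hall
  have g2 : ℓ₂ ≤ ℓ := (le_max_left _ _).trans hall
  have g3 : ℓ₃ ≤ ℓ := ((le_max_left _ _).trans (le_max_right _ _)).trans hall
  have g4 : 3 ≤ ℓ := ((le_max_right _ _).trans (le_max_right _ _)).trans hall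
  obtain ⟨L, hL⟩ : ∃ X : ℕ, X = ell ℓ := ⟨_, rfl⟩
  have hLL : L₀ ≤ L := by rw [hL]; exact hℓ₂ ℓ g2
  have hLN : L ^ N ≤ ℓ := by rw [hL]; exact hℓ₃ ℓ g3
  have hLr : max (max ((3 + C + (T + 1)) / δ) (Real.exp C')) ((k₀ + 1 : ℕ) + 5 + V₀) ≤ (L : ℝ) :=
    hL₀.trans (by exact_mod_cast hLL)
  have e1 : (3 + C + (T + 1)) / δ ≤ (L : ℝ) := ((le_max_left _ _).trans (le_max_left _ _)).trans hLr
  have e2 : Real.exp C' ≤ (L : ℝ) := ((le_max_right _ _).trans (le_max_left _ _)).trans hLr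
  have e3 : k₀ + 1 + 5 + V₀ ≤ L := by
    have : (((k₀ + 1 + 5 + V₀ : ℕ)) : ℝ) ≤ L := by
      refine le_trans ?_ ((le_max_right _ _).trans hLr)
      push_cast
      linarith
    exact_mod_cast this
  have hL5 : 6 ≤ L := by omega
  have hLpos : (0 : ℝ) < L := by exact_mod_cast (by omega : 0 < L)
  have hLℓ : L ≤ ℓ := (Nat.le_self_pow (by omega) L).trans hLN
  have hℓpos : (0 : ℝ) < ℓ := by exact_mod_cast (by omega : 0 < ℓ)
  have hδL : 3 + C + (T + 1) ≤ δ * L := by rwa [div_le_iff₀' hδ0] at e1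
  have hδℓ : 3 + C + (T + 1) ≤ δ * ℓ :=
    hδL.trans (mul_le_mul_of_nonneg_left (by exact_mod_cast hLℓ) hδ0.le)
  have hTr : (0 : ℝ) < T := by exact_mod_cast (by omega : 0 < T)
  have hδT : 6 ≤ δ * T := by
    rw [div_le_iff₀' hδ0] at hT₀
    have : (T : ℝ) = T₀ + 1 := by rw [hT]; push_cast; ring
    rw [this]; nlinarith
  have hδJ : 42 ≤ δ * J₁ := by
    rw [div_le_iff₀' hδ0] at hJ₀
    have h1 : (J₀ : ℝ) ≤ J₁ := by exact_mod_cast (by omega : J₀ ≤ J₁)
    exact hJ₀.trans (mul_le_mul_of_nonneg_left h1 hδ0.le)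
  have hδk : 4 ≤ δ * (k₀ + 1 : ℕ) := by
    rw [div_le_iff₀' hδ0] at hk₀
    push_cast
    nlinarith
  have hC'L : C' ≤ Real.log L := by rwa [Real.le_log_iff_exp_le hLpos]
  have hC'ℓ : C' ≤ Real.log ℓ := hC'L.trans (Real.log_le_log hLpos (by exact_mod_cast hLℓ))
  obtain ⟨V, hV⟩ : ∃ X : ℕ, X = L ^ 20 := ⟨_, rfl⟩
  have hV2 : L ^ 2 ≤ V := by rw [hV]; exact Nat.pow_le_pow_right (by omega) (by norm_num)
  obtain ⟨Y, hY⟩ : ∃ X : ℕ, X = ℓ ^ 2 := ⟨_, rfl⟩
  obtain ⟨Z, hZ⟩ : ∃ X : ℕ, X = V ^ 2 ^ (5 * J₁) := ⟨_, rfl⟩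
  have hLV : L ≤ V := by rw [hV]; exact Nat.le_self_pow (by norm_num) L
  have hV36 : 36 ≤ V := le_trans (by nlinarith) hV2
  have hmar : (3 * L + 2) ^ 10 ≤ V := by
    calc (3 * L + 2) ^ 10 ≤ (L ^ 2) ^ 10 := Nat.pow_le_pow_left (by nlinarith) 10
      _ = V := by rw [hV, ← pow_mul]
  have hYℓ : ℓ ≤ Y := by rw [hY]; exact Nat.le_self_pow (by norm_num) ℓ
  have hVr : (L : ℝ) ^ 2 ≤ (V : ℝ) := by exact_mod_cast hV2
  have hYr : (Y : ℝ) = (ℓ : ℝ) ^ 2 := by rw [hY]; push_cast; ring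
  have hVpos : (0 : ℝ) < V := by exact_mod_cast (by omega : 0 < V)
  have hYpos : (0 : ℝ) < Y := by rw [hYr]; positivity
  have hZA : Z = L ^ A := by rw [hZ, hV, ← pow_mul, hA]
  have hxℓ : x < 2 ^ ℓ := by rw [hℓ]; exact lt_two_pow_ell x
  have hℓL : ℓ < 2 ^ L := by rw [hL]; exact lt_two_pow_ell ℓ
  have hℓx : ℓ ≤ x := by
    have h1 : Nat.log 2 x < x := Nat.log_lt_self 2 (by omega)
    rw [hℓ]; unfold ell
    have h3 : 2 ^ 2 ≤ x ∨ x < 4 := by omega
    rcases h3 with h3 | h3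
    · have h4 : Nat.log 2 x + 2 ≤ x := by
        have h5 : Nat.log 2 x < x - 1 := by
          refine Nat.log_lt_of_lt_pow (by omega) ?_
          have : ∀ y : ℕ, 3 ≤ y → y + 1 < 2 ^ y := by
            intro y hy
            induction y, hy using Nat.le_induction with
            | base => norm_num
            | succ y hy ih => rw [pow_succ]; omega
          have := this (x - 1) (by omega)
          omega
        omega
      exact h4
    · exfalso
      have h5 : ell x ≤ 3 + 0 := by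
        unfold ell
        have : Nat.log 2 x < 2 := Nat.log_lt_of_lt_pow (by omega) (by omega)
        omega
      omega
  have hZℓ : Z ≤ ℓ := by
    rw [hZA]
    exact (Nat.pow_le_pow_right (by omega) (by omega)).trans hLN
  have hZx : Z ≤ x := hZℓ.trans hℓx
  have hVZ' : V ≤ Z := by rw [hZ]; exact Nat.le_self_pow (by positivity) V
  -- the exceptional sets
  set S := primesIn V Z with hS
  set F1 := (Ioc 0 x).filter fun n => ∃ p ∈ Ioc V x, p ^ 2 ∣ n with hF1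
  set F2 := (Ioc 0 x).filter fun n => ∃ q ∈ n.primeFactors, ∃ p ∈ n.primeFactors,
    Y < q ∧ q ∣ p - 1 with hF2
  set F3 := (Ioc 0 x).filter fun n => ∃ q, V < q ∧ ∃ k ∈ Ioc 0 Y, q * (k * q + 1) ∣ n with hF3
  set F4 := (Ioc 0 x).filter fun n => ∃ q ∈ n.primeFactors, ∃ p ∈ n.primeFactors,
      V < q ∧ q ^ 2 < p ∧ q ∣ p - 1 with hF4
  set F5 := (Ioc 0 x).filter fun n => T * Real.log ℓ ≤ Real.log (Sm n Y : ℝ) with hF5
  set F6 := (Ioc 0 x).filter fun n => ∃ q, Y < q ∧ ∃ k ∈ Ioc 0 x, q * (k * q + 1) ∣ n with hF6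
  set F7 := (Ioc 0 x).filter fun n => ∃ q, V < q ∧ ∃ k ∈ Ioc 0 (ℓ ^ T), q * (k * q + 1) ∣ n with hF7
  set F8 := (Ioc 0 x).filter fun n => T * Real.log V ≤ Real.log (Sm n V : ℝ) with hF8
  set F9 := (Ioc 0 x).filter fun n => 7 / 2 * (J₁ : ℝ) + J₁ / 2 ≤
    ((S.filter (fun p => p ∣ n)).card : ℝ) with hF9
  set F10 := (Ioc 0 x).filter fun n => n * n ≤ x with hF10
  set F11 := (Ioc 0 x).filter fun n => Y ≤ 2 ^ n.primeFactors.card with hF11
  set F12 := (Ioc 0 x).filter fun n => n.primeFactors.card + (k₀ + 1) ≤ n.primeFactorsList.length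
    with hF12
  have hdiv : ∀ a b : ℝ, a ≤ 3 + C + (T + 1) → 0 < b → 3 + C + (T + 1) ≤ δ * b → (x : ℝ) * (a * b) / b ^ 2 ≤ δ * x := by
    intro a b h1 h2 h3
    have h4 : (x : ℝ) * (a * b) / b ^ 2 = x * (a / b) := by field_simp
    rw [h4, mul_comm δ]
    refine mul_le_mul_of_nonneg_left ?_ hx0.le
    rw [div_le_iff₀ h2]
    linarith
  have hT1 : (0 : ℝ) ≤ T := hTr.le
  have c1 : (F1.card : ℝ) ≤ δ * x := by
    refine (Pool.Agent.Lib.MP_688fd0_co.DEN.card_sq x V (by omega)).trans ?_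
    have h1 := hdiv 1 L (by linarith) hLpos hδL
    refine le_trans ?_ h1
    have : (1 : ℝ) ≤ L := by exact_mod_cast (by omega : 1 ≤ L)
    gcongr
    nlinarith
  have c2 : (F2.card : ℝ) ≤ δ * x := by
    refine (bad1 x Y (by omega)).trans ?_
    rw [hYr, ← hℓ]
    have h1 := hdiv 1 ℓ (by linarith) hℓpos hδℓ
    rwa [one_mul] at h1
  have hellY : (ell Y : ℝ) ≤ 3 * L := by
    have h1 : Y < 2 ^ (2 * L) := by
      rw [hY, mul_comm, pow_mul]
      exact Nat.pow_lt_pow_left hℓL (by norm_num)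
    have h2 := ell_le_of_lt (by omega) h1
    have h3 : ell Y ≤ 3 * L := by omega
    exact_mod_cast h3
  have c3 : (F3.card : ℝ) ≤ δ * x := by
    refine (card_qk x V Y (by omega)).trans ?_
    refine le_trans ?_ (hdiv 3 L (by linarith) hLpos hδL)
    gcongr
  have c4 : (F4.card : ℝ) ≤ δ * x := by
    refine (hC x V L (by omega) ?_).trans ?_
    · calc x ≤ 2 ^ ℓ := hxℓ.le
        _ ≤ 2 ^ 2 ^ L := Nat.pow_le_pow_right (by norm_num) hℓL.le
        _ ≤ 4 ^ 2 ^ L := Nat.pow_le_pow_left (by norm_num) _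
    · refine le_trans ?_ (hdiv C L (by linarith) hLpos hδL)
      gcongr
  have hlogℓ : 0 < Real.log ℓ := Real.log_pos (by exact_mod_cast (by omega : 1 < ℓ))
  have hlogV : 0 < Real.log V := Real.log_pos (by exact_mod_cast (by omega : 1 < V))
  have hmark : ∀ (y : ℕ) (R : ℝ), 1 ≤ y → 0 < R → Real.log y + C' ≤ 3 * R →
      (((Ioc 0 x).filter fun n => T * R ≤ Real.log (Sm n y : ℝ)).card : ℝ) ≤ δ * x := by
    intro y R hy hR0 hyR
    refine (card_smooth_ge x y (T * R) (by positivity)).trans ?_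
    have h1 := (hC' y hy).trans hyR
    rw [div_le_iff₀ (by positivity)]
    calc 2 * (x : ℝ) * ∑ q ∈ primesIn 0 y, Real.log q / q ≤ 2 * x * (3 * R) :=
          mul_le_mul_of_nonneg_left h1 (by positivity)
      _ = 6 * (x * R) := by ring
      _ ≤ (δ * T) * (x * R) := mul_le_mul_of_nonneg_right hδT (by positivity)
      _ = δ * x * (T * R) := by ring
  have c5 : (F5.card : ℝ) ≤ δ * x := by
    refine hmark Y (Real.log ℓ) (by omega) hlogℓ ?_
    rw [hYr, Real.log_pow]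
    push_cast
    linarith
  have c6 : (F6.card : ℝ) ≤ δ * x := by
    refine (card_qk x Y x (by omega)).trans ?_
    rw [hYr, ← hℓ]
    have h1 := hdiv 1 ℓ (by linarith) hℓpos hδℓ
    rwa [one_mul] at h1
  have c7 : (F7.card : ℝ) ≤ δ * x := by
    refine (card_qk x V (ℓ ^ T) (by omega)).trans ?_
    have h1 : ell (ℓ ^ T) ≤ (T + 1) * L := by
      have h2 : ℓ ^ T < 2 ^ (L * T + 1) := by
        calc ℓ ^ T ≤ (2 ^ L) ^ T := Nat.pow_le_pow_left hℓL.le T
          _ = 2 ^ (L * T) := by rw [pow_mul]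
          _ < 2 ^ (L * T + 1) := Nat.pow_lt_pow_right (by norm_num) (by omega)
      have h3 := ell_le_of_lt (by omega) h2
      nlinarith
    have h1' : (ell (ℓ ^ T) : ℝ) ≤ (T + 1) * L := by exact_mod_cast h1
    refine le_trans ?_ (hdiv (T + 1) L (by linarith) hLpos hδL)
    gcongr
  have c8 : (F8.card : ℝ) ≤ δ * x := by
    refine hmark V (Real.log V) (by omega) hlogV ?_
    have : Real.log L ≤ Real.log V := Real.log_le_log hLpos (by exact_mod_cast hLV)
    linarith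
  have hSp : ∀ p ∈ S, p.Prime := fun p hp => (mem_primesIn.mp hp).2
  have hScard : S.card ≤ x := by
    have h1 : S ⊆ Ioc 0 x := by
      intro p hp
      have h2 := mem_primesIn.mp hp
      rw [mem_Ioc]
      exact ⟨h2.2.pos, h2.1.2.trans hZx⟩
    simpa using Finset.card_le_card h1
  have hJ₁pos : (0 : ℝ) < J₁ := by exact_mod_cast (by omega : 0 < J₁)
  have c9 : (F9.card : ℝ) ≤ δ * x := by
    have h1 := hV₀ V (5 * J₁) (by omega) (by omega)
    rw [← hZ, ← hS] at h1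
    have h2 : ∑ p ∈ S, (1 : ℝ) / p ≤ 7 / 2 * J₁ := by
      refine h1.trans_eq ?_
      push_cast; ring
    refine (card_many x S hSp hScard (7 / 2 * J₁) (J₁ / 2) h2 (by positivity)).trans ?_
    rw [div_le_iff₀ (by positivity)]
    calc 3 * (x : ℝ) * (7 / 2 * J₁) = 42 * (x * (J₁ / 4)) := by ring
      _ ≤ (δ * J₁) * (x * (J₁ / 4)) := mul_le_mul_of_nonneg_right hδJ (by positivity)
      _ = δ * x * (J₁ / 2) ^ 2 := by ring
  have c10 : (F10.card : ℝ) ≤ δ * x := by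
    refine (Pool.Agent.Lib.MP_688fd0_co.DEN.card_small x).trans ?_
    have h1 : (L : ℝ) ≤ Real.sqrt x := by
      refine Real.le_sqrt_of_sq_le ?_
      have h2 : V ≤ x := hVZ'.trans hZx
      exact_mod_cast hV2.trans h2
    have h2 : (1 : ℝ) ≤ δ * Real.sqrt x := by
      have := mul_le_mul_of_nonneg_left h1 hδ0.le
      linarith
    calc Real.sqrt x = 1 * Real.sqrt x := (one_mul _).symm
      _ ≤ (δ * Real.sqrt x) * Real.sqrt x := mul_le_mul_of_nonneg_right h2 (Real.sqrt_nonneg _)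
      _ = δ * (Real.sqrt x * Real.sqrt x) := by ring
      _ = δ * x := by rw [Real.mul_self_sqrt hx0.le]
  have c11 : (F11.card : ℝ) ≤ δ * x := by
    refine (bad2 x Y (by omega)).trans ?_
    rw [hYr, ← hℓ]
    have h1 := hdiv 1 ℓ (by linarith) hℓpos hδℓ
    rwa [one_mul] at h1
  have c12 : (F12.card : ℝ) ≤ δ * x := by
    refine (Pool.Agent.Lib.MP_688fd0_co.OSF.H23.bad6 x (k₀ + 1) (by omega)).trans ?_
    rw [div_le_iff₀ (by positivity)]
    calc 4 * (x : ℝ) ≤ (δ * (k₀ + 1 : ℕ)) * x := mul_le_mul_of_nonneg_right hδk hx0.le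
      _ = δ * x * (k₀ + 1 : ℕ) := by ring
  -- inclusion
  have hsub : (Icc 1 x).filter (fun n => ¬ NiceX c n) ⊆
      F1 ∪ (F2 ∪ (F3 ∪ (F4 ∪ (F5 ∪ (F6 ∪ (F7 ∪ (F8 ∪ (F9 ∪ (F10 ∪ (F11 ∪ F12)))))))))) := by
    intro n hn
    rw [mem_filter] at hn
    obtain ⟨hn0, hnice⟩ := hn
    have hn0' := mem_Icc.1 hn0
    have hnI : n ∈ Ioc 0 x := by rw [mem_Ioc]; omega
    have hnz : n ≠ 0 := by omega
    by_contra hcon
    simp only [mem_union, not_or] at hcon
    obtain ⟨n1, n2, n3, n4, n5, n6, n7, n8, n9, n10, n11, n12⟩ := hcon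
    rw [hF1, mem_filter] at n1
    rw [hF2, mem_filter] at n2
    rw [hF3, mem_filter] at n3
    rw [hF4, mem_filter] at n4
    rw [hF5, mem_filter] at n5
    rw [hF6, mem_filter] at n6
    rw [hF7, mem_filter] at n7
    rw [hF8, mem_filter] at n8
    rw [hF9, mem_filter] at n9
    rw [hF10, mem_filter] at n10
    rw [hF11, mem_filter] at n11
    rw [hF12, mem_filter] at n12
    apply hnice
    have hle : ∀ p ∈ n.primeFactors, p ≤ x := fun p hp =>
      (Nat.le_of_dvd (by omega) (Nat.dvd_of_mem_primeFactors hp)).trans hn0'.2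
    refine niceX_of (T := T) (J₁ := J₁) (L := L) (V := V) hnz (by omega) ?_ ?_ ?_ ?_ ?_ ?_ ?_ ?_ hmar ?_
    · -- squares
      intro p hp hVp hd
      exact n1 ⟨hnI, p, mem_Ioc.2 ⟨hVp, hle p hp⟩, hd⟩
    · -- pairs
      intro q hq p hp hVq hd
      have hqp := Nat.prime_of_mem_primeFactors hq
      have hpp := Nat.prime_of_mem_primeFactors hp
      rcases Nat.lt_or_ge Y q with hYq | hqY
      · exact n2 ⟨hnI, q, hq, p, hp, hYq, hd⟩
      rcases Nat.lt_or_ge (q ^ 2) p with hpq | hpq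
      · exact n4 ⟨hnI, q, hq, p, hp, hVq, hpq, hd⟩
      · obtain ⟨k, hk⟩ := hd
        have hp1 : p = k * q + 1 := by
          have := hpp.two_le
          rw [mul_comm] at hk
          omega
        have hk0 : 0 < k := by
          rcases Nat.eq_zero_or_pos k with h | h
          · subst h
            have := hpp.two_le
            omega
          · exact h
        have hne : q ≠ p := by
          intro h
          have : q ≤ k * q := Nat.le_mul_of_pos_left q hk0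
          omega
        have hcop : Nat.Coprime q p := (Nat.coprime_primes hqp hpp).mpr hne
        have hkq : k ≤ q := by
          have h1 : k * q ≤ q * q := by rw [← sq]; omega
          exact Nat.le_of_mul_le_mul_right h1 hqp.pos
        refine n3 ⟨hnI, q, hVq, k, mem_Ioc.2 ⟨hk0, hkq.trans hqY⟩, ?_⟩
        rw [← hp1]
        exact hcop.mul_dvd_of_dvd_of_dvd (Nat.dvd_of_mem_primeFactors hq) (Nat.dvd_of_mem_primeFactors hp)
    · -- Sylow
      intro p hp hVp d hd hdm hdp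
      have hpp := Nat.prime_of_mem_primeFactors hp
      by_contra hd1
      have hd0 : d ≠ 0 := by rintro rfl; exact hnz (Nat.eq_zero_of_zero_dvd hd)
      have hd2 : 1 < d := by omega
      have hdvd : p ∣ d - 1 := (Nat.modEq_iff_dvd' hd2.le).1 hdm.symm
      obtain ⟨k, hk⟩ := hdvd
      have hdk : d = k * p + 1 := by
        rw [mul_comm] at hk
        omega
      have hk0 : 0 < k := by
        rcases Nat.eq_zero_or_pos k with h | h
        · subst h; omega
        · exact h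
      have hcop : Nat.Coprime p d := by
        rw [hpp.coprime_iff_not_dvd, hdk]
        intro h
        have := (Nat.dvd_add_right (Dvd.intro_left k rfl)).1 h
        exact hpp.one_lt.ne' (Nat.dvd_one.1 this)
      have hmul : p * (k * p + 1) ∣ n := by
        rw [← hdk]
        exact hcop.mul_dvd_of_dvd_of_dvd (Nat.dvd_of_mem_primeFactors hp) hd
      have hkd : k ≤ d := by
        have : k ≤ k * p := Nat.le_mul_of_pos_right k hpp.pos
        omega
      rcases Nat.lt_or_ge Y p with hYp | hpY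
      · refine n6 ⟨hnI, p, hYp, k, mem_Ioc.2 ⟨hk0, ?_⟩, hmul⟩
        exact hkd.trans ((Nat.le_of_dvd (by omega) hd).trans hn0'.2)
      · refine n7 ⟨hnI, p, hVp, k, mem_Ioc.2 ⟨hk0, hkd.trans ?_⟩, hmul⟩
        -- d divides the smooth part
        have h1 : d.Coprime (Ro n Y) := by
          refine Nat.coprime_of_dvd ?_
          intro r hr h3 h4
          have h5 := mem_primeFactors_Ro hnz (Nat.mem_primeFactors.2 ⟨hr, h4, (Ro_pos n Y).ne'⟩)
          have h6 := hdp r (Nat.mem_primeFactors.2 ⟨hr, h3, hd0⟩)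
          omega
        have h2 : d ∣ Sm n Y := by
          have h3 : d ∣ Sm n Y * Ro n Y := by rw [Sm_mul_Ro hnz]; exact hd
          exact h1.dvd_of_dvd_mul_right h3
        have h3 : Real.log (Sm n Y : ℝ) < T * Real.log ℓ := by
          by_contra h
          exact n5 ⟨hnI, not_lt.1 h⟩
        have h4 : Sm n Y ≤ ℓ ^ T := by
          have h5 : (Sm n Y : ℝ) < (ℓ : ℝ) ^ T := by
            rw [← Real.log_lt_log_iff (by exact_mod_cast Sm_pos n Y) (by positivity), Real.log_pow]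
            exact h3
          have h6 : Sm n Y < ℓ ^ T := by exact_mod_cast h5
          exact h6.le
        exact (Nat.le_of_dvd (Sm_pos n Y) h2).trans h4
    · -- smooth part
      have h3 : Real.log (Sm n V : ℝ) < T * Real.log V := by
        by_contra h
        exact n8 ⟨hnI, not_lt.1 h⟩
      have h5 : (Sm n V : ℝ) < (V : ℝ) ^ T := by
        rw [← Real.log_lt_log_iff (by exact_mod_cast Sm_pos n V) (by positivity), Real.log_pow]
        exact h3
      have h6 : Sm n V < V ^ T := by exact_mod_cast h5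
      exact h6.le
    · -- count
      have h1 : ((S.filter (fun p => p ∣ n)).card : ℝ) < 7 / 2 * (J₁ : ℝ) + J₁ / 2 := by
        by_contra h
        exact n9 ⟨hnI, not_lt.1 h⟩
      have h2 : cnt n V (V ^ 2 ^ (5 * J₁)) = (S.filter (fun p => p ∣ n)).card := by
        rw [← hZ]
        unfold cnt
        congr 1
        ext p
        rw [mem_filter, mem_filter, mem_primesIn, Nat.mem_primeFactors]
        constructor
        · rintro ⟨⟨h3, h4, _⟩, h5, h6⟩
          exact ⟨⟨⟨h5, h6⟩, h3⟩, h4⟩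
        · rintro ⟨⟨⟨h5, h6⟩, h3⟩, h4⟩
          exact ⟨⟨h3, h4, hnz⟩, h5, h6⟩
      rw [h2]
      have h3 : ((S.filter (fun p => p ∣ n)).card : ℝ) < ((4 * J₁ : ℕ) : ℝ) := by
        push_cast
        linarith
      have h4 : (S.filter (fun p => p ∣ n)).card < 4 * J₁ := by exact_mod_cast h3
      exact h4.le
    · -- T + 1 ≤ 2 ^ J₁
      have h1 : J₁ < 2 ^ J₁ := Nat.lt_two_pow_self
      omega
    · -- Omega
      have h1 : 2 ^ n.primeFactors.card < Y := by
        by_contra h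
        exact n11 ⟨hnI, not_lt.1 h⟩
      have h2 : n.primeFactorsList.length < n.primeFactors.card + (k₀ + 1) := by
        by_contra h
        exact n12 ⟨hnI, not_lt.1 h⟩
      have h3 : 2 ^ n.primeFactors.card < 2 ^ (2 * L) := by
        refine h1.trans ?_
        rw [hY, mul_comm, pow_mul]
        exact Nat.pow_lt_pow_left hℓL (by norm_num)
      have h4 : n.primeFactors.card < 2 * L := (Nat.pow_lt_pow_iff_right (by norm_num)).1 h3
      omega
    · refine le_trans ?_ hV2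
      nlinarith
    · -- size
      rw [← hZ, hZA]
      have h1 : L ^ A + 3 * L ≤ L ^ (A + 1) := by
        have h2 : 1 ≤ A := by
          rw [hA]
          have : 0 < 2 ^ (5 * J₁) := by positivity
          omega
        have h3 : L ≤ L ^ A := Nat.le_self_pow (by omega) L
        rw [pow_succ]
        nlinarith
      have h4 : (L ^ A + 3 * L) ^ c ≤ L ^ B := by
        calc (L ^ A + 3 * L) ^ c ≤ (L ^ (A + 1)) ^ c := Nat.pow_le_pow_left h1 c
          _ = L ^ ((A + 1) * c) := by rw [← pow_mul]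
          _ ≤ L ^ B := Nat.pow_le_pow_right (by omega) (by omega)
      refine h4.trans ?_
      have h5 : x < n * n := by
        by_contra h
        exact n10 ⟨hnI, not_lt.1 h⟩
      have h6 : n < 2 ^ (Nat.log 2 n + 1) := Nat.lt_pow_succ_log_self (by norm_num) n
      have h7 : x < 2 ^ (2 * Nat.log 2 n + 2) := by
        calc x < n * n := h5
          _ ≤ 2 ^ (Nat.log 2 n + 1) * 2 ^ (Nat.log 2 n + 1) := Nat.mul_le_mul h6.le h6.le
          _ = 2 ^ (2 * Nat.log 2 n + 2) := by rw [← pow_add]; ring_nf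
      have h8 : Nat.log 2 x < 2 * Nat.log 2 n + 2 := Nat.log_lt_of_lt_pow (by omega) h7
      have h9 : ℓ = Nat.log 2 x + 2 := by rw [hℓ]; unfold ell; rfl
      have h10 : L ^ B * L ≤ ℓ := by
        rw [← pow_succ]
        exact (Nat.pow_le_pow_right (by omega) (by omega)).trans hLN
      have h11 : 1 ≤ L ^ B := Nat.one_le_pow _ _ (by omega)
      have h12 : L ^ B * 6 ≤ ℓ := (Nat.mul_le_mul_left _ hL5).trans h10
      omega
  have hcard := Finset.card_le_card hsub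
  have hun : (F1 ∪ (F2 ∪ (F3 ∪ (F4 ∪ (F5 ∪ (F6 ∪ (F7 ∪ (F8 ∪ (F9 ∪ (F10 ∪ (F11 ∪ F12))))))))))).card ≤
      F1.card + (F2.card + (F3.card + (F4.card + (F5.card + (F6.card + (F7.card + (F8.card +
        (F9.card + (F10.card + (F11.card + F12.card)))))))))) := by
    refine (card_union_le _ _).trans (Nat.add_le_add_left ?_ _)
    refine (card_union_le _ _).trans (Nat.add_le_add_left ?_ _)
    refine (card_union_le _ _).trans (Nat.add_le_add_left ?_ _)
    refine (card_union_le _ _).trans (Nat.add_le_add_left ?_ _)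
    refine (card_union_le _ _).trans (Nat.add_le_add_left ?_ _)
    refine (card_union_le _ _).trans (Nat.add_le_add_left ?_ _)
    refine (card_union_le _ _).trans (Nat.add_le_add_left ?_ _)
    refine (card_union_le _ _).trans (Nat.add_le_add_left ?_ _)
    refine (card_union_le _ _).trans (Nat.add_le_add_left ?_ _)
    refine (card_union_le _ _).trans (Nat.add_le_add_left ?_ _)
    exact card_union_le _ _
  have hfin : (((Icc 1 x).filter (fun n => ¬ NiceX c n)).card : ℝ) ≤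
      F1.card + (F2.card + (F3.card + (F4.card + (F5.card + (F6.card + (F7.card + (F8.card +
        (F9.card + (F10.card + (F11.card + (F12.card : ℝ))))))))))) := by
    exact_mod_cast hcard.trans hun
  have hεδ : ε = 12 * δ := by rw [hδ]; ring
  rw [hεδ]
  linarith

open Classical in
/-- Almost all integers have a cut with a margin and small `k`. -/
theorem niceXS : ∀ (c : ℕ) (ε : ℝ), 0 < ε → ∃ x₀ : ℕ, ∀ x ≥ x₀,
      (((Finset.Icc 1 x).filter (fun n => ¬ NiceX c n)).card : ℝ) ≤ ε * x :=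
  niceXS_of Pool.Agent.Lib.MP_688fd0_co.OSF.H38.mertap Pool.Agent.Lib.MP_688fd0_co.OSF.H38.recg
    Pool.Agent.Lib.MP_688fd0_co.OSF.H38.btsum

end Pool.Agent.Lib.MP_688fd0_co.SQ3
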