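import Pool.Agent.Lib.MP_688fd0_co.SQ3.Iface
import Pool.Agent.Lib.MP_688fd0_co.SQ2.H41.ScaleS

/-!
SCALE for groups of any parity: the group acts on the subgroup `Y` of order `P` by `eps`; the heights are defined on the
kernel of `eps`.
-/

set_option autoImplicit false

namespace Pool.Agent.Lib.MP_688fd0_co.SQ3

open Pool.Agent.Lib.MP_688fd0_co.OSF Pool.Agent.Lib.MP_688fd0_co.SQ2
open Subgroup
open H87 (wd)

universe u v

namespace H41

/-- SCALE for words. -/
theorem scale {Q : Type u} [Group Q] [Finite Q] {L : Type v} [Fintype L] (q : L → Q) {P : ℕ} (hP : P.Prime)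
    (hP2 : 2 < P) (Y : Subgroup Q) (hYn : Y.Normal) (hYc : Nat.card Y = P) (eps : Q →* ℤˣ)
    (hact : ∀ y ∈ Y, ∀ g : Q, g * y * g⁻¹ = y ^ ((eps g : ℤˣ) : ℤ)) (hQ : ¬ P ^ 2 ∣ Nat.card Q)
    (ha₀ : ∃ a₀, P ∣ orderOf (q a₀)) (t : ℕ) (s : ℕ → ℕ) (hs : Monotone s) (r : ℕ)
    (hr : (Fintype.card L + 1) ^ t ≤ r) (hW : s (r + 1) ^ Fintype.card L + 1 < P) (hW2 : 2 * s (r + 1) < P) :
    ∃ a : L, P ∣ orderOf (q a) ∧ ∃ i ≤ r, ∀ D : Subgroup Q, D.Normal → (Nat.card D).Coprime P →
      H87.Sep q D a 1 1 (s (r + 1)) ∧ H87.Sep q D a t (s i) (s (i + 1)) := by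
  classical
  have hPf : Fact P.Prime := ⟨hP⟩
  have hP1 := hP.one_lt
  -- a generator of `Y`
  obtain ⟨y, hy⟩ := exists_prime_orderOf_dvd_card' (G := Y) P (by rw [hYc])
  have hyo : orderOf (y : Q) = P := by rw [Subgroup.orderOf_coe, hy]
  have hgen : ∀ y' ∈ Y, y' ∈ zpowers (y : Q) := by
    have h1 : zpowers (y : Q) = Y := by
      refine Subgroup.eq_of_le_of_card_ge (Subgroup.zpowers_le.2 y.2) ?_
      rw [Nat.card_zpowers, hyo, hYc]
    intro y' h
    rw [h1]; exact h
  -- the kernel of `eps` is the centraliser of `y`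
  have hk : ∀ g : Q, g * y = y * g ↔ eps g = 1 := by
    intro g
    have h1 := hact y y.2 g
    constructor
    · intro h2
      rcases Int.units_eq_one_or (eps g) with h | h
      · exact h
      · rw [h2, mul_inv_cancel_right, h] at h1
        exfalso
        have h3 : (y : Q) ^ 2 = 1 := by
          rw [Units.val_neg, Units.val_one, zpow_neg_one] at h1
          rw [pow_two]
          nth_rewrite 2 [h1]
          exact mul_inv_cancel _
        have h4 := orderOf_dvd_of_pow_eq_one h3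
        rw [hyo] at h4
        exact absurd (Nat.le_of_dvd (by norm_num) h4) (by omega)
    · intro h
      rw [h, Units.val_one, zpow_one] at h1
      exact mul_inv_eq_iff_eq_mul.1 h1
  set K := eps.ker with hK
  have hyK : (y : Q) ∈ K := (hk y).1 rfl
  have hPK : P ∣ Nat.card (center K) := by
    have h1 : (⟨(y : Q), hyK⟩ : K) ∈ center K := by
      rw [Subgroup.mem_center_iff]
      rintro ⟨g, hg⟩
      exact Subtype.ext ((hk g).2 hg)
    have h2 := orderOf_dvd_natCard (⟨⟨(y : Q), hyK⟩, h1⟩ : center K)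
    rwa [Subgroup.orderOf_mk, Subgroup.orderOf_mk, hyo] at h2
  have hQK : ¬ P ^ 2 ∣ Nat.card K := fun h => hQ (h.trans (Subgroup.card_subgroup_dvd_card K))
  obtain ⟨h, hsurj, hker⟩ := H87.exists_part hP hPK hQK
  -- the kernel of the height has order prime to `P`
  have hkc : ¬ P ∣ Nat.card h.ker := by
    intro h1
    have h2 := h.ker.card_mul_index
    rw [Subgroup.index_ker, MonoidHom.range_eq_top.2 hsurj, Subgroup.card_top,
      Nat.card_congr Multiplicative.toAdd, Nat.card_zmod] at h2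
    obtain ⟨d, hd⟩ := h1
    exact hQK ⟨d, by rw [← h2, hd]; ring⟩
  have key0 : ∀ z : Multiplicative (ZMod P), z ≠ 1 ↔ z.toAdd ≠ 0 := by
    intro z
    exact not_congr ⟨fun e => by rw [e]; rfl, fun e => Multiplicative.toAdd.injective e⟩
  have key : ∀ (z w : Multiplicative (ZMod P)) (j : ℤ), z = w ^ j ↔ z.toAdd = j * w.toAdd := by
    intro z w j
    constructor
    · rintro rfl
      rw [toAdd_zpow, zsmul_eq_mul]
    · intro e
      apply Multiplicative.toAdd.injective
      rw [e, toAdd_zpow, zsmul_eq_mul]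
  -- the heights
  let hh : Q → ZMod P := fun x => if hx : x ∈ K then (h ⟨x, hx⟩).toAdd else 0
  have hhK : ∀ x (hx : x ∈ K), hh x = (h ⟨x, hx⟩).toAdd := fun x hx => dif_pos hx
  -- elements of order divisible by `P`
  have hordP : ∀ x : Q, P ∣ orderOf x → hh x ≠ 0 := by
    intro x hx
    have hxK : x ∈ K := by
      -- a power of `x` has order `P`, so it generates `Y`
      obtain ⟨m, hm⟩ := hx
      have h1 : orderOf (x ^ m) = P := by
        have h2 : m ≠ 0 := by
          rintro rfl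
          rw [mul_zero] at hm
          exact (orderOf_pos x).ne' hm
        rw [orderOf_pow' x h2, hm, Nat.gcd_eq_right ⟨P, by ring⟩, Nat.mul_div_cancel _ (Nat.pos_of_ne_zero h2)]
      -- `zpowers (x ^ m) ⊔ Y` has order dividing `P ^ 2`
      have h2 : x ^ m ∈ Y := by
        by_contra hno
        have h3 : Disjoint (zpowers (x ^ m)) Y := by
          rw [disjoint_iff, eq_bot_iff]
          intro z hz
          rw [Subgroup.mem_bot]
          by_contra hz1
          obtain ⟨hz2, hz3⟩ := Subgroup.mem_inf.1 hz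
          obtain ⟨i, hi⟩ := Subgroup.mem_zpowers_iff.1 hz2
          have h4 : Nat.Coprime i.natAbs P := by
            rw [Nat.coprime_comm, hP.coprime_iff_not_dvd]
            intro h5
            apply hz1
            obtain ⟨c, hc⟩ := Int.natCast_dvd.2 h5
            rw [← hi, hc, zpow_mul, zpow_natCast, ← h1, pow_orderOf_eq_one, one_zpow]
          have h5 : x ^ m ∈ zpowers z := by
            have h6 : IsCoprime i (P : ℤ) := Int.isCoprime_iff_gcd_eq_one.2 (by
              rw [Int.gcd, Int.natAbs_natCast]; exact h4)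
            obtain ⟨u, w, huw⟩ := h6
            refine Subgroup.mem_zpowers_iff.2 ⟨u, ?_⟩
            rw [← hi, ← zpow_mul]
            have h7 : i * u = 1 - w * P := by linarith
            have h8 : (x ^ m) ^ P = 1 := by rw [← h1, pow_orderOf_eq_one]
            rw [h7, zpow_sub, zpow_one, mul_comm w, zpow_mul, zpow_natCast, h8, one_zpow, inv_one, mul_one]
          exact hno ((Subgroup.zpowers_le.2 hz3) h5)
        have h4 := Subgroup.card_eq_card_quotient_mul_card_subgroup Y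
        rw [hYc] at h4
        -- the image of `x ^ m` in `Q ⧸ Y` has order `P`
        have h5 : orderOf (QuotientGroup.mk' Y (x ^ m)) = P := by
          have h6 : orderOf (QuotientGroup.mk' Y (x ^ m)) ∣ P := h1 ▸ orderOf_map_dvd _ _
          rcases (Nat.dvd_prime hP).1 h6 with h7 | h7
          · rw [orderOf_eq_one_iff] at h7
            exact absurd ((QuotientGroup.eq_one_iff _).1 h7) hno
          · exact h7
        have h6 : P ∣ Nat.card (Q ⧸ Y) := h5 ▸ orderOf_dvd_natCard _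
        exact hQ (by rw [h4, pow_two]; exact Nat.mul_dvd_mul_right h6 P)
      have h3 : (y : Q) ∈ zpowers (x ^ m) := by
        have h4 : zpowers (x ^ m) = Y := by
          refine Subgroup.eq_of_le_of_card_ge (Subgroup.zpowers_le.2 h2) ?_
          rw [Nat.card_zpowers, h1, hYc]
        rw [h4]; exact y.2
      obtain ⟨i, hi⟩ := Subgroup.mem_zpowers_iff.1 h3
      rw [hK, MonoidHom.mem_ker]
      refine (hk x).1 ?_
      rw [← hi]
      exact (((Commute.refl x).pow_right m).zpow_right i).eq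
    rw [hhK x hxK]
    refine (key0 _).1 fun h1 => hkc ?_
    have h2 := orderOf_dvd_natCard (⟨⟨x, hxK⟩, MonoidHom.mem_ker.2 h1⟩ : h.ker)
    rw [Subgroup.orderOf_mk, Subgroup.orderOf_mk] at h2
    exact hx.trans h2
  -- the label
  obtain ⟨a, ha, hb⟩ := H87.exists_sink hP (fun l => hh (q l)) (by
    obtain ⟨l, hl⟩ := ha₀
    exact ⟨l, hordP _ hl⟩) (s (r + 1)) hW
  have haK : q a ∈ K := by
    by_contra h1
    exact ha (dif_neg h1)
  have ha' := ha
  simp only [hhK _ haK] at ha'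
  have hord : P ∣ orderOf (q a) := by
    have h1 : orderOf (h ⟨q a, haK⟩) ∣ P := by
      refine orderOf_dvd_of_pow_eq_one ?_
      apply Multiplicative.toAdd.injective
      rw [toAdd_pow, toAdd_one, nsmul_eq_mul, CharP.cast_eq_zero, zero_mul]
    rcases (Nat.dvd_prime hP).1 h1 with h2 | h2
    · exact absurd (orderOf_eq_one_iff.1 h2) ((key0 _).2 ha')
    · rw [← Subgroup.orderOf_mk (q a) haK, ← h2]
      exact orderOf_map_dvd h _
  -- the words
  let w : (Fin t → Option L) → Q := fun f => (List.ofFn fun i => (f i).elim 1 q).prod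
  obtain ⟨i, hi, hg⟩ := H87.exists_gap hP (fun f => hh (w f)) ha s hs r (by
    rw [Fintype.card_fun, Fintype.card_fin, Fintype.card_option]
    exact hr) hW2
  have hdrop : ∀ D : Subgroup Q, D.Normal → (Nat.card D).Coprime P → ∀ d ∈ D, ∀ (g : Q) (j : ℤ),
      g = d * q a ^ j → hh g = j * hh (q a) := by
    rintro D hDn hD d hd g j rfl
    have hDY : ∀ z, z ∈ D → z ∈ Y → z = 1 := by
      intro z hz1 hz2
      refine H87.eq_one_of_coprime hD ?_ ?_
      · have h3 := pow_card_eq_one' (x := (⟨z, hz1⟩ : D))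
        exact congrArg Subtype.val h3
      · have h3 := pow_card_eq_one' (x := (⟨z, hz2⟩ : Y))
        rw [hYc] at h3
        exact congrArg Subtype.val h3
    have hDK : D ≤ K := by
      intro d hd
      rw [hK, MonoidHom.mem_ker]
      refine (hk d).1 ?_
      have h1 : d * y * d⁻¹ * (y : Q)⁻¹ = 1 := by
        refine hDY _ ?_ (Y.mul_mem (hYn.conj_mem _ y.2 d) (Y.inv_mem y.2))
        have h2 : d * y * d⁻¹ * (y : Q)⁻¹ = d * ((y : Q) * d⁻¹ * (y : Q)⁻¹) := by group
        rw [h2]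
        exact D.mul_mem hd (hDn.conj_mem _ (D.inv_mem hd) y)
      rw [mul_inv_eq_one, mul_inv_eq_iff_eq_mul] at h1
      exact h1
    have hdK := hDK hd
    have hgK : d * q a ^ j ∈ K := K.mul_mem hdK (K.zpow_mem haK j)
    rw [hhK _ hgK, hhK _ haK, ← key]
    have h1 : (⟨d * q a ^ j, hgK⟩ : K) = ⟨d, hdK⟩ * ⟨q a, haK⟩ ^ j := Subtype.ext (by simp)
    have h2 : h ⟨d, hdK⟩ = 1 := by
      have h3 : Nat.card (D.subgroupOf K) = Nat.card D :=
        Nat.card_congr (Subgroup.subgroupOfEquivOfLe hDK).toEquiv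
      exact hker (D.subgroupOf K) (by rw [h3]; exact hD) (Subgroup.mem_subgroupOf.2 hd)
    rw [h1, map_mul, map_zpow, h2, one_mul]
  refine ⟨a, hord, i, hi, fun D hDn hD => ⟨?_, ?_⟩⟩
  · intro l hl j hj1 hj2 d hd he
    have h1 := hdrop D hDn hD d hd _ _ he
    have hj1' : 2 ≤ |j| := by push_cast at hj1; omega
    rcases l with _ | ⟨b, l⟩
    · -- the empty word
      have h2 : hh (wd q []) = 0 := by
        show hh 1 = 0
        rw [hhK 1 K.one_mem]
        have : (⟨1, K.one_mem⟩ : K) = 1 := rfl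
        rw [this, map_one]; rfl
      rw [h2] at h1
      have h3 : ((j : ℤ) : ZMod P) = ((0 : ℤ) : ZMod P) := by
        rw [(mul_eq_zero.1 h1.symm).resolve_right ha, Int.cast_zero]
      have h4 := H87.eq_of_small h3 (by rw [abs_zero]; omega)
      rw [h4, abs_zero] at hj1'
      omega
    · have hl' : l = [] := by
        rcases l with _ | ⟨c, l⟩
        · rfl
        · simp at hl
      subst hl'
      refine hb b j hj1' hj2 ?_
      show hh (q b) = j * hh (q a)
      rw [← h1]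
      simp [wd]
  · intro l hl j hj1 hj2 d hd he
    refine hg (fun i => l[(i : ℕ)]?) j hj1 hj2 ?_
    have e : w (fun i => l[(i : ℕ)]?) = wd q l := by
      show (List.ofFn fun i : Fin t => (l[(i : ℕ)]?).elim 1 q).prod = (l.map q).prod
      have e1 : (List.ofFn fun i : Fin t => (l[(i : ℕ)]?).elim 1 q) =
          l.map q ++ List.replicate (t - l.length) 1 := by
        refine List.ext_getElem (by simp; omega) fun i hi1 hi2 => ?_
        rw [List.getElem_ofFn, List.getElem_append]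
        split_ifs with hlt
        · rw [List.length_map] at hlt
          rw [List.getElem_map, List.getElem?_eq_getElem hlt]
          rfl
        · rw [List.length_map] at hlt
          rw [List.getElem?_eq_none (not_lt.1 hlt), List.getElem_replicate]
          rfl
      rw [e1, List.prod_append, List.prod_replicate, one_pow, mul_one]
    simp only [e]
    exact hdrop D hDn hD d hd _ _ he

/-- SCALE for a large `P`. -/
theorem scale_of_pow (c₁ t : ℕ) : ∃ c₀ : ℕ, ∀ (Q : Type u) [Group Q] [Finite Q] (L : Type v) [Fintype L] (q : L → Q)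
    (P x H : ℕ) (s : ℕ → ℕ) (Y : Subgroup Q) (eps : Q →* ℤˣ), P.Prime → 2 < P → Y.Normal → Nat.card Y = P →
    (∀ y ∈ Y, ∀ g : Q, g * y * g⁻¹ = y ^ ((eps g : ℤˣ) : ℤ)) → ¬ P ^ 2 ∣ Nat.card Q →
    (∃ a₀, P ∣ orderOf (q a₀)) → 2 ≤ x → Fintype.card L ≤ x ^ 2 → 1 ≤ H → H ≤ 2 ^ (x ^ c₁) → 2 ^ (x ^ c₀) ≤ P →
    Monotone s → s 0 ≤ H → (∀ i, s (i + 1) ≤ H * (s i + 1)) →
    ∃ a : L, P ∣ orderOf (q a) ∧ ∃ i ≤ (Fintype.card L + 1) ^ t, ∀ D : Subgroup Q, D.Normal → (Nat.card D).Coprime P →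
      H87.Sep q D a 1 1 (s ((Fintype.card L + 1) ^ t + 1)) ∧ H87.Sep q D a t (s i) (s (i + 1)) := by
  obtain ⟨c₀, hc⟩ := H87.scale_pow c₁ t
  refine ⟨c₀, ?_⟩
  intro Q _ _ L _ q P x H s Y eps hP hP2 hYn hYc hact hQ ha₀ hx hN hH1 hH hPx hs h0 h1
  obtain ⟨b1, b2⟩ := hc x (Fintype.card L) H P hx hN hH hPx
  have hsr := H87.scale_seq hH1 h0 h1 ((Fintype.card L + 1) ^ t + 1)
  rw [show (Fintype.card L + 1) ^ t + 1 + 1 = (Fintype.card L + 1) ^ t + 2 by ring] at hsr
  refine scale q hP hP2 Y hYn hYc eps hact hQ ha₀ t s hs _ le_rfl ?_ ?_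
  · exact lt_of_le_of_lt (Nat.succ_le_succ (Nat.pow_le_pow_left hsr _)) b1
  · exact lt_of_le_of_lt (Nat.mul_le_mul_left _ hsr) b2

end H41

open SQ2.H41 (PP PE HH pe_HH one_le_HH sc sc_mono dbl needW_le fin_eq)

/-- SCALE. -/
theorem scale : ScaleS := by
  obtain ⟨c₁, hc₁⟩ := pe_HH
  obtain ⟨c₂, hc₂⟩ := H41.scale_of_pow.{0, 0} c₁ 8
  -- the size of `W`
  have hWpe : PE (fun ρ k r => (ρ + 2) ^ 20 * k ^ 10 * ((2 * HH ρ k r) ^ ((ρ + 1) ^ 8 + 2)) ^ 2) := by
    have h0 : PE HH := ⟨c₁, hc₁⟩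
    have h1 : PE (fun ρ k r => (2 * HH ρ k r) ^ ((ρ + 1) ^ 8 + 2)) :=
      ((PP.const 2).pe.mul h0).pow (((PP.ρ.add (PP.const 1)).pow 8).add (PP.const 2))
    exact (((PP.ρ.add (PP.const 2)).pow 20).mul (PP.k.pow 10)).pe.mul (h1.pow (PP.const 2))
  obtain ⟨c₃, hc₃⟩ := hWpe
  refine ⟨max c₂ (c₃ + 1), ?_⟩
  intro Q _ _ B k r P Y eps hfin hk _ hP hPk hYn hYc hact hPQ ha₀ hPbig
  have hft : Fintype B.L := Fintype.ofFinite B.L
  set ρ := Nat.card B.L with hρ
  have hρ' : Fintype.card B.L = ρ := by rw [hρ, Nat.card_eq_fintype_card]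
  set x := k + ρ + r + 1 with hx
  have hx2 : 2 ≤ x := by omega
  set H := HH ρ k r with hH
  have hH1 : 1 ≤ H := one_le_HH ρ k r
  have hle : ρ ≤ x ^ 2 := by nlinarith
  have hP2 : 2 ^ x ^ c₂ ≤ P := (Nat.pow_le_pow_right (by norm_num)
    (Nat.pow_le_pow_right (by omega) (le_max_left _ _))).trans hPbig
  have hP3 : 2 < P := by
    have h1 : 2 ^ 2 ≤ 2 ^ (x ^ max c₂ (c₃ + 1)) := by
      refine Nat.pow_le_pow_right (by norm_num) ?_
      calc 2 ≤ x ^ 1 := by rw [pow_one]; exact hx2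
        _ ≤ x ^ max c₂ (c₃ + 1) := Nat.pow_le_pow_right (by omega) ((Nat.le_add_left 1 c₃).trans (le_max_right _ _))
    omega
  obtain ⟨a, ha, i, hi, hsep⟩ := hc₂ Q B.L B.q P x H (sc H) Y eps hP hP3 hYn hYc hact hPQ ha₀ hx2
    (by rw [hρ']; exact hle) hH1 (hc₁ ρ k r hk) hP2 (sc_mono hH1) (Nat.zero_le _) (fun i => le_rfl)
  refine ⟨a, ha, fun D hD hDn => ?_⟩
  have hcop : (Nat.card D).Coprime P := by
    refine Nat.Coprime.coprime_dvd_left hD ?_
    exact ((hP.coprime_iff_not_dvd).2 hPk).symm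
  obtain ⟨hs1, hs2⟩ := hsep D hDn hcop
  have key : ∀ (y : Q) (j : ℤ), (B.q a ^ j)⁻¹ * y ∈ D → ∃ d ∈ D, y = d * B.q a ^ j := by
    intro y j h
    refine ⟨B.q a ^ j * ((B.q a ^ j)⁻¹ * y) * (B.q a ^ j)⁻¹, hDn.conj_mem _ h _, ?_⟩
    group
  have hWle : sc H (i + 1) ≤ sc H ((Fintype.card B.L + 1) ^ 8 + 1) := sc_mono hH1 (by omega)
  refine ⟨sc H i, sc H (i + 1), ?_, ?_, ?_, ?_, ?_⟩
  · -- Sink
    intro b j hj1 hj2 hmem
    obtain ⟨d, hd, he⟩ := key _ _ hmem
    refine hs1 [b] (by simp) j (by push_cast; omega) (hj2.trans (by exact_mod_cast hWle)) d hd ?_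
    simpa [H87.wd] using he
  · -- Sep
    intro l j hl hj1 hj2 hmem
    obtain ⟨d, hd, he⟩ := key _ _ hmem
    refine hs2 l hl j hj1 hj2 d hd ?_
    rw [← he, fin_eq, one_mul]
  · -- Lev
    intro j hj0 hj hmem
    rcases lt_or_ge 1 |j| with h1 | h1
    · refine hs1 [] (by simp) j (by push_cast; omega) (hj.trans (by exact_mod_cast hWle))
        (B.q a ^ j)⁻¹ (D.inv_mem hmem) ?_
      simp [H87.wd]
    · have h2 : B.q a ∈ D := by
        have h3 : 0 < |j| := abs_pos.2 hj0
        rcases abs_choice j with h4 | h4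
        · have : j = 1 := by omega
          subst this
          simpa using hmem
        · have : j = -1 := by omega
          subst this
          have := D.inv_mem hmem
          simpa using this
      have h3 : orderOf (B.q a) ∣ Nat.card D := by
        have := orderOf_dvd_natCard (⟨B.q a, h2⟩ : D)
        rwa [Subgroup.orderOf_mk] at this
      have h4 : P ∣ Nat.gcd (Nat.card D) P := Nat.dvd_gcd (ha.trans h3) dvd_rfl
      rw [hcop] at h4
      exact hP.one_lt.ne' (Nat.dvd_one.1 h4)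
  · exact needW_le ρ r k (sc H i)
  · -- size
    have h1 := H87.scale_seq hH1 (s := sc H) (Nat.zero_le _) (fun i => le_rfl) (i + 1)
    have h2 : sc H (i + 1) ≤ (2 * H) ^ ((ρ + 1) ^ 8 + 2) := by
      refine h1.trans (Nat.pow_le_pow_right (by omega) ?_)
      rw [hρ'] at hi
      omega
    calc (ρ + 2) ^ 20 * k ^ 10 * sc H (i + 1) ^ 2
        ≤ (ρ + 2) ^ 20 * k ^ 10 * ((2 * H) ^ ((ρ + 1) ^ 8 + 2)) ^ 2 :=
          Nat.mul_le_mul_left _ (Nat.pow_le_pow_left h2 2)
      _ ≤ 2 ^ (x ^ c₃) := hc₃ ρ k r hk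
      _ < 2 ^ (x ^ (max c₂ (c₃ + 1))) := by
          refine Nat.pow_lt_pow_right (by norm_num) ?_
          have h3 := dbl hx2 c₃
          have h4 : 1 ≤ x ^ c₃ := Nat.one_le_pow _ _ (by omega)
          have h5 : x ^ (c₃ + 1) ≤ x ^ (max c₂ (c₃ + 1)) :=
            Nat.pow_le_pow_right (by omega) (le_max_right _ _)
          omega
      _ ≤ P := hPbig

end Pool.Agent.Lib.MP_688fd0_co.SQ3
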